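import Pool.Agent.Run7.h982.QP.M3
import Pool.Agent.Run7.h982.QP.M4
import Pool.Agent.Run7.h313.QP.APE
import Pool.Agent.Run7.h416.QP.DEN
import Pool.Agent.Run7.h416.QP.CUBE
import Pool.Agent.Run7.h213.QP.NPQ
import Pool.Agent.Run7.h213.QP.REC
import Pool.Agent.Run7.h722.QP.POS
import Pool.Agent.Run7.h722.QP.REL
import Pool.Agent.Run7.h722.QP.VDC
import Pool.Agent.Run7.h56.QP.STEP1
import Pool.Agent.Run7.h975.QP.TK

/-!
# MP_57adf2_an, Q2: the limit of the recurrence averages along `m, n, m + n, m n` is positive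

Positive answer to Q2. For a finitely generated multiplicative action and a set `A` of positive
measure the limit of
`R_N(A) = N⁻² ∑_{m, n ≤ N} μ(A ∩ T_{mn}⁻¹ A ∩ T_{m+n}⁻¹ A ∩ T_m⁻¹ A ∩ T_n⁻¹ A)` exists (this is the
starting file `AveragesConverge`, which answers Q1) and is positive (new).

Proof of the positivity. Let `Z` be the closed span of the vectors `y` in `L²` for which there are
`Q` and a sparse set `E` of primes (the sum of the reciprocals converges) such that `T_n y = y` for
all `n ≡ 1 (mod Q)` without prime factors in `E`.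

* Vectors orthogonal to `Z` have vanishing averages along all arithmetic progressions, and by a
  Turán-Kubilius argument they do not contribute at the place `m + n`, also when `m` and `n` are
  restricted to certain sets of positive density.
* Let `f` be the projection of `1_A` to `Z`. It is nonnegative, and `∫_A f ≥ μ(A)²`; so there are
  `ε > 0` and `A' ⊆ A` of positive measure with `f ≥ ε` on `A'`.
* For `Q` divisible enough, `T_t f` is close to `f` for most of the `t ≡ 1 (mod Q)`, in relative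
  density. Take `m = Q^k m'`, where `m'` has no special prime factor, is `1` modulo `Q` and has
  numbers of prime factors of the colours divisible by `φ(Q)`, and `n ≡ 1 (mod Q)`. Then
  `m + n ≡ 1 (mod Q)`, and since `n` runs through a whole progression the error is small in relative
  density.
* What remains is at least `ε` times the mean of `μ(B_n ∩ T_m⁻¹ B_n)`, `B_n = A' ∩ T_n⁻¹ A'`. The
  mean over `m'` is a projection `P` (cube theorem of the library), and a sum over `k < K` with the
  weights `K - k` of `⟨B_n, P T_Q^k B_n⟩` is at least `(K² μ(B_n)² - K) / 2`. The mean of `μ(B_n)`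
  over `n ≡ 1 (mod Q)` is almost at least `μ(A')²`. All constants do not depend on `Q`.

Authors: helper982 (proof, statements, assembly), helper313 (`APE`), helper416 (`DEN`, `COV`,
`CUBE`), helper213 (`NPQ`, `REC`), helper722 (`POS`, `REL`, `VDC`), helper56 (`STEP1`),
helper975 (`TK`).
-/

set_option autoImplicit false
set_option linter.unusedSectionVars false

open Finset Filter Topology MeasureTheory
open scoped ENNReal

namespace Pool.Agent.Results.MP_57adf2_an.PositiveLimit

open Pool.Agent.K7.H83.MA Pool.Agent.Run7.h982.QP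

/-- A multiplicative measure preserving action (identities between maps are understood almost
everywhere): `T n`, `n ≥ 1`, are measure preserving maps, invertible modulo null sets, with
`T 1 = id` and `T (m n) = T m ∘ T n`. -/
structure MultAction {X : Type*} [MeasurableSpace X] (μ : Measure X) (T : ℕ → X → X) : Prop where
  mp : ∀ n, 0 < n → MeasurePreserving (T n) μ μ
  inv : ∀ n, 0 < n → ∃ S : X → X, MeasurePreserving S μ μ ∧ (∀ᵐ x ∂μ, S (T n x) = x) ∧
    (∀ᵐ x ∂μ, T n (S x) = x)
  one : ∀ᵐ x ∂μ, T 1 x = x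
  mul : ∀ m n, 0 < m → 0 < n → ∀ᵐ x ∂μ, T (m * n) x = T m (T n x)

/-- The action is finitely generated: up to equality almost everywhere, only finitely many maps
occur among the `T p`, `p` prime. -/
def FinGen {X : Type*} [MeasurableSpace X] (μ : Measure X) (T : ℕ → X → X) : Prop :=
  ∃ V : Set (X → X), V.Finite ∧ ∀ p : ℕ, p.Prime → ∃ S ∈ V, T p =ᵐ[μ] S

/-- The averages
`R_N(A) = N⁻² ∑_{m, n ≤ N} μ(A ∩ T_{mn}⁻¹ A ∩ T_{m+n}⁻¹ A ∩ T_m⁻¹ A ∩ T_n⁻¹ A)`. -/
noncomputable def RAv {X : Type*} [MeasurableSpace X] (μ : Measure X) (T : ℕ → X → X) (A : Set X)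
    (N : ℕ) : ℝ :=
  1 / (N : ℝ) ^ 2 * ∑ m ∈ Icc 1 N, ∑ n ∈ Icc 1 N,
    μ.real (A ∩ T (m * n) ⁻¹' A ∩ T (m + n) ⁻¹' A ∩ T m ⁻¹' A ∩ T n ⁻¹' A)

theorem exists_col {X : Type*} [MeasurableSpace X] {μ : Measure X} {T : ℕ → X → X}
    (hT : MultAction μ T) (hfg : FinGen μ T) : ∃ (r : ℕ) (c : ℕ → Fin r), Sys c μ T := by
  classical
  obtain ⟨V, hV, hVT⟩ := hfg
  have h1 : ∀ p : ℕ, ∃ S : hV.toFinset, p.Prime → T p =ᵐ[μ] (S : X → X) := by
    intro p
    by_cases hp : p.Prime
    · obtain ⟨S, hS, hTS⟩ := hVT p hp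
      exact ⟨⟨S, hV.mem_toFinset.2 hS⟩, fun _ => hTS⟩
    · obtain ⟨S, hS, hTS⟩ := hVT 2 Nat.prime_two
      exact ⟨⟨S, hV.mem_toFinset.2 hS⟩, fun h => absurd h hp⟩
  choose S hS using h1
  refine ⟨hV.toFinset.card, fun p => hV.toFinset.equivFin (S p), hT.mp, hT.inv, hT.one, hT.mul,
    fun p q hp hq hpq => ?_⟩
  have h2 : S p = S q := hV.toFinset.equivFin.injective hpq
  have h3 := hS p hp
  rw [h2] at h3
  exact h3.trans (hS q hq).symm

/-- the averages do not change if the set is changed by a null set -/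
theorem RAv_congr {X : Type*} [MeasurableSpace X] {μ : Measure X} {T : ℕ → X → X}
    (hT : MultAction μ T) {A B : Set X} (h : A =ᵐ[μ] B) (N : ℕ) : RAv μ T A N = RAv μ T B N := by
  unfold RAv
  congr 1
  refine Finset.sum_congr rfl fun m hm => Finset.sum_congr rfl fun n hn => ?_
  rw [mem_Icc] at hm hn
  have hp : ∀ k : ℕ, 0 < k → T k ⁻¹' A =ᵐ[μ] T k ⁻¹' B := fun k hk =>
    (hT.mp k hk).quasiMeasurePreserving.preimage_ae_eq h
  have h1 := hp m hm.1
  have h2 := hp n hn.1
  have h3 := hp (m * n) (Nat.mul_pos hm.1 hn.1)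
  have h4 := hp (m + n) (by omega)
  exact measureReal_congr (((((h.inter h3)).inter h4).inter h1).inter h2)

/-- **Q2, answered in the affirmative.** Let `(X, μ)` be a standard Borel probability space and
`(T n)` a finitely generated multiplicative measure preserving action on it. For every
(measurable up to a null set) set `A` of positive measure the limit of the averages `R_N(A)` exists
and is strictly positive. -/
theorem result {X : Type*} [MeasurableSpace X] [StandardBorelSpace X] (μ : Measure X)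
    [IsProbabilityMeasure μ] (T : ℕ → X → X) (hT : MultAction μ T) (hfg : FinGen μ T)
    (A : Set X) (hA : NullMeasurableSet A μ) (hpos : 0 < μ A) :
    ∃ L : ℝ, 0 < L ∧ Tendsto (fun N : ℕ => RAv μ T A N) atTop (𝓝 L) := by
  classical
  obtain ⟨r, c, hs⟩ := exists_col hT hfg
  obtain ⟨B, hAB, hB, hBA⟩ := hA.exists_measurable_superset_ae_eq
  have hposB : 0 < μ.real B := by
    rw [measureReal_def]
    refine ENNReal.toReal_pos ?_ (measure_ne_top μ B)
    exact (lt_of_lt_of_le hpos (measure_mono hAB)).ne'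
  have tREL := Pool.Agent.Run7.h722.QP.t_REL
  have tAPE := _root_.Run7.h313.QP.t_APE
  have tNPQ := Pool.Agent.Run7.h213.QP.t_NPQ tREL
  have tPOS := Pool.Agent.Run7.h722.QP.t_POS
  have tDEN := Pool.Agent.Run7.h416.QP.t_DEN
  have tCOV := Pool.Agent.Run7.h416.QP.t_COV
  have tTK := Pool.Agent.Run7.h975.QP.t_TK tAPE
  have tCUBE := Pool.Agent.Run7.h416.QP.t_CUBE tDEN
  have tVDC := Pool.Agent.Run7.h722.QP.t_VDC
  have tREC := Pool.Agent.Run7.h213.QP.t_REC tNPQ tAPE
  have tSTEP := Pool.Agent.Run7.h56.QP.t_STEP1 tTK tPOS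
  obtain ⟨L, hL, hlim⟩ := limit_pos (t_MAIN tCUBE tDEN tSTEP tVDC tREC tNPQ tCOV) hs hB hposB
  refine ⟨L, hL, hlim.congr fun N => ?_⟩
  rw [RAv_congr hT hBA.symm N, RN_eq hs hB]
  unfold RAv
  have hI : (Icc 1 N : Finset ℕ) = Ioc 0 N := by
    ext k; rw [mem_Icc, mem_Ioc]; omega
  have hN : 1 / (N : ℝ) ^ 2 = (N : ℝ)⁻¹ * (N : ℝ)⁻¹ := by
    rw [one_div, sq, mul_inv]
  rw [hI, hN]
  rfl

end Pool.Agent.Results.MP_57adf2_an.PositiveLimit
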